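import Pool.Agent.Helper892.QR.FieldN
import Pool.Agent.Helper892.VE.Quot
import Pool.Agent.Helper892.ER.Dsc

/-!
Values of a polynomial with the root `1` at fractions of two congruent numbers, up to `N`-th powers.
-/

set_option autoImplicit false

open NumberField Module IntermediateField Polynomial Height

namespace Pool.Agent.Helper892.ST

open Pool.Agent.Helper892.VE Pool.Agent.Helper892.QR Pool.Agent.Helper892.ER

variable (k : Type) [Field k] [NumberField k]

lemma norm_nat (n : ℕ) : Algebra.norm ℚ ((n : ℕ) : k) = (n : ℚ) ^ finrank ℚ k := by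
  have := Algebra.norm_algebraMap (R := ℚ) (S := k) (n : ℚ)
  rwa [map_natCast] at this

lemma coe_nat (a : ℕ) : ((((a : ℕ) : 𝓞 k) : 𝓞 k) : k) = (a : k) :=
  map_natCast (algebraMap (𝓞 k) k) a

lemma arch_nat {a b : ℕ} (hb : b < a) : arch ((a : ℕ) : 𝓞 k) (b : 𝓞 k) = (a : ℝ) ^ finrank ℚ k := by
  unfold arch
  have h1 : ∀ v : InfinitePlace k, (⨆ i, v ((![((a : ℕ) : 𝓞 k), ((b : ℕ) : 𝓞 k)] i : 𝓞 k) : k)) =
      (a : ℝ) := by
    intro v
    have e0 : v ((((a : ℕ) : 𝓞 k) : 𝓞 k) : k) = (a : ℝ) := by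
      rw [coe_nat]
      exact v_nat v a
    have e1 : v ((((b : ℕ) : 𝓞 k) : 𝓞 k) : k) = (b : ℝ) := by
      rw [coe_nat]
      exact v_nat v b
    apply le_antisymm
    · refine ciSup_le fun i => ?_
      fin_cases i
      · exact e0.le
      · refine e1.le.trans ?_
        exact_mod_cast hb.le
    · have hbdd : BddAbove (Set.range fun i =>
          v ((![((a : ℕ) : 𝓞 k), ((b : ℕ) : 𝓞 k)] i : 𝓞 k) : k)) := (Set.finite_range _).bddAbove
      have := le_ciSup hbdd 0
      exact e0.symm.le.trans this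
  rw [Finset.prod_congr rfl fun v _ => by rw [h1 v], Finset.prod_pow_eq_pow_sum]
  congr 1
  exact InfinitePlace.sum_mult_eq

/-- the height of a fraction -/
lemma ht_frac {a b : ℕ} (hb0 : 0 < b) (hb : b < a) (hc : a.Coprime b) :
    logHeight₁ ((a : k) / (b : k)) = finrank ℚ k * Real.log a := by
  have h1 : logHeight₁ ((a : ℚ) / (b : ℚ)) = Real.log a := by
    rw [Rat.logHeight₁_eq_log_max]
    have e1 : ((a : ℚ) / (b : ℚ)).num = a := by
      have := Rat.num_div_eq_of_coprime (a := (a : ℤ)) (b := (b : ℤ)) (by exact_mod_cast hb0)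
        (by simpa using hc)
      rw [Int.cast_natCast, Int.cast_natCast] at this
      exact this
    have e2 : ((a : ℚ) / (b : ℚ)).den = b := by
      have := Rat.den_div_eq_of_coprime (a := (a : ℤ)) (b := (b : ℤ)) (by exact_mod_cast hb0)
        (by simpa using hc)
      rw [Int.cast_natCast, Int.cast_natCast] at this
      exact Nat.cast_injective (R := ℤ) this
    rw [e1, e2, Int.natAbs_natCast, max_eq_left hb.le]
  have h2 := lH_eq (k := ℚ) k ((a : ℚ) / (b : ℚ))
  unfold lH at h2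
  rw [h1, map_div₀, map_natCast, map_natCast] at h2
  have hkpos : (0 : ℝ) < finrank ℚ k := by exact_mod_cast finrank_pos
  field_simp at h2
  linarith

theorem exists_A (F : k[X]) (hF1 : F.eval 1 = 0) {N e : ℕ} (hN : 1 ≤ N) (he : 1 ≤ e)
    (hF : F.natDegree ≤ N * e) {p0 : ℕ} (hp0 : p0.Prime) : ∃ C : ℝ, ∀ a b m : ℕ, 0 < b → b < a →
    p0 ^ m ∣ a - b → F.eval ((a : k) / b) ≠ 0 → ∃ (A : 𝓞 k) (s : k), s ≠ 0 ∧ A ≠ 0 ∧
      (A : k) = s ^ N * F.eval ((a : k) / b) ∧
      Real.log |(Algebra.norm ℚ (A : k) : ℝ)| ≤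
        finrank ℚ k * (N * e * Real.log a - m * Real.log p0) + C := by
  by_cases hF0 : F = 0
  · refine ⟨0, fun a b m _ _ _ h => ?_⟩
    rw [hF0, eval_zero] at h
    exact absurd rfl h
  set Q : k[X] := F /ₘ (X - C 1) with hQ
  have hFQ : (X - C 1) * Q = F := mul_divByMonic_eq_iff_isRoot.2 hF1
  have hQdeg : Q.natDegree ≤ N * e - 1 := by
    rw [hQ, natDegree_divByMonic F (monic_X_sub_C 1), natDegree_X_sub_C]
    omega
  have hNe : 1 ≤ N * e := Nat.mul_pos hN he
  obtain ⟨c, hcM, hc⟩ := IsLocalization.integerNormalization_spec (nonZeroDivisors (𝓞 k)) Q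
  set Ψ : (𝓞 k)[X] := IsLocalization.integerNormalization (nonZeroDivisors (𝓞 k)) Q with hΨ
  have hc0 : c ≠ 0 := nonZeroDivisors.ne_zero hcM
  have hck : (c : k) ≠ 0 := RingOfIntegers.coe_ne_zero_iff.2 hc0
  have hdeg : Ψ.natDegree ≤ N * e - 1 := by
    have h1 : (Ψ.map (algebraMap (𝓞 k) k)).natDegree = Ψ.natDegree :=
      natDegree_map_eq_of_injective (RingOfIntegers.coe_injective) _
    rw [← h1, hc]
    exact (natDegree_smul_le _ _).trans hQdeg
  have hΨev : ∀ x : k, aeval x Ψ = (c : k) * Q.eval x := by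
    intro x
    rw [← eval_map_algebraMap Ψ x, hc, eval_smul]
    rfl
  obtain ⟨C0, hC0, hnorm⟩ := norm_frm k Ψ (N * e - 1)
  set d : ℕ := finrank ℚ k with hd
  have hdpos : (0 : ℝ) < d := by exact_mod_cast finrank_pos
  set Lc : ℝ := Real.log |(Algebra.norm ℚ (c : k) : ℝ)| with hLc
  refine ⟨((N - 1 : ℕ) : ℝ) * Lc + d * (N * Real.log p0) + Real.log (C0 + 1), ?_⟩
  intro a b m hb0 hba hdvd hFe
  have ha0 : 0 < a := by omega
  have hbk : (b : k) ≠ 0 := by exact_mod_cast hb0.ne'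
  have hpk : (p0 : k) ≠ 0 := by exact_mod_cast hp0.ne_zero
  -- the exponent
  set j : ℕ := m / N with hj
  have hNj : N * j ≤ m := Nat.mul_div_le m N
  have hmN : m < N * j + N := by
    have := Nat.lt_mul_div_succ m (show 0 < N by omega)
    rw [← hj] at this
    linarith
  obtain ⟨n, hn⟩ : p0 ^ (N * j) ∣ a - b := (pow_dvd_pow p0 hNj).trans hdvd
  have hn0 : 0 < n := by
    rcases Nat.eq_zero_or_pos n with h | h
    · rw [h, mul_zero] at hn
      omega
    · exact h
  have hnk : (a : k) - b = (p0 : k) ^ (N * j) * n := by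
    have h1 : ((a - b : ℕ) : k) = (a : k) - b := Nat.cast_sub hba.le
    rw [← h1, hn]
    push_cast
    ring
  set f : 𝓞 k := frm Ψ (N * e - 1) (a : 𝓞 k) (b : 𝓞 k) with hf
  have hfe : (f : k) = (b : k) ^ (N * e - 1) * ((c : k) * Q.eval ((a : k) / b)) := by
    have h1 : ((a : k) / b) * ((((b : ℕ) : 𝓞 k) : 𝓞 k) : k) = ((((a : ℕ) : 𝓞 k) : 𝓞 k) : k) := by
      rw [coe_nat, coe_nat]
      field_simp
    have h2 := frm_eq k hdeg h1
    rw [hΨev, coe_nat] at h2
    exact h2
  have hev : F.eval ((a : k) / b) = ((a : k) - b) / b * Q.eval ((a : k) / b) := by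
    rw [← hFQ, eval_mul, eval_sub, eval_X, eval_C]
    congr 1
    field_simp
  set A : 𝓞 k := c ^ (N - 1) * (n : 𝓞 k) * f with hA
  set s : k := c * b ^ e / (p0 : k) ^ j with hs
  have hs0 : s ≠ 0 := div_ne_zero (mul_ne_zero hck (pow_ne_zero _ hbk)) (pow_ne_zero _ hpk)
  have hAc : (A : k) = (c : k) ^ (N - 1) * n * (f : k) := by
    rw [hA]
    change algebraMap (𝓞 k) k _ = _
    rw [map_mul, map_mul, map_pow, map_natCast]
  have hAe : (A : k) = s ^ N * F.eval ((a : k) / b) := by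
    rw [hAc, hfe, hev, hnk, hs, div_pow, mul_pow, ← pow_mul, ← pow_mul]
    have e2 : (c : k) ^ N = (c : k) ^ (N - 1) * c := by
      rw [← pow_succ, Nat.sub_add_cancel hN]
    have e3 : (b : k) ^ (e * N) = (b : k) ^ (N * e - 1) * b := by
      rw [← pow_succ, Nat.sub_add_cancel hNe, mul_comm e N]
    have e4 : (p0 : k) ^ (j * N) = (p0 : k) ^ (N * j) := by rw [mul_comm]
    have e5 : (p0 : k) ^ (N * j) ≠ 0 := pow_ne_zero _ hpk
    rw [e2, e3, e4]
    field_simp
  have hA0 : A ≠ 0 := by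
    apply ne_of_coe
    rw [hAe]
    exact mul_ne_zero (pow_ne_zero _ hs0) hFe
  refine ⟨A, s, hs0, hA0, hAe, ?_⟩
  -- the norm
  have hf0 : f ≠ 0 := by
    intro h
    rw [hA, h, mul_zero] at hA0
    exact hA0 rfl
  have g1 : Real.log |(Algebra.norm ℚ (A : k) : ℝ)| = ((N - 1 : ℕ) : ℝ) * Lc + d * Real.log n +
      Real.log |(Algebra.norm ℚ (f : k) : ℝ)| := by
    rw [hAc, map_mul, map_mul, map_pow, norm_nat]
    push_cast
    have hnc : |(Algebra.norm ℚ (c : k) : ℝ)| ≠ 0 := by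
      rw [abs_ne_zero]
      exact_mod_cast Algebra.norm_ne_zero_iff.2 hck
    have hnf : |(Algebra.norm ℚ (f : k) : ℝ)| ≠ 0 := by
      rw [abs_ne_zero]
      exact_mod_cast Algebra.norm_ne_zero_iff.2 (RingOfIntegers.coe_ne_zero_iff.2 hf0)
    have hnn : (n : ℝ) ≠ 0 := by exact_mod_cast hn0.ne'
    have hln : Real.log |(n : ℝ)| = Real.log n := Real.log_abs _
    rw [abs_mul, abs_mul, abs_pow, abs_pow, Real.log_mul (mul_ne_zero (pow_ne_zero _ hnc)
      (pow_ne_zero _ (by rw [abs_ne_zero]; exact hnn))) hnf,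
      Real.log_mul (pow_ne_zero _ hnc) (pow_ne_zero _ (by rw [abs_ne_zero]; exact hnn)),
      Real.log_pow, Real.log_pow, hln]
  have g2 : Real.log |(Algebra.norm ℚ (f : k) : ℝ)| ≤
      Real.log (C0 + 1) + d * ((N * e - 1 : ℕ) : ℝ) * Real.log a := by
    have h1 := hnorm (a : 𝓞 k) (b : 𝓞 k)
    rw [arch_nat k hba] at h1
    have har : (0 : ℝ) < a := by exact_mod_cast ha0
    have hpos : 0 < |(Algebra.norm ℚ (f : k) : ℝ)| := by
      rw [abs_pos]
      exact_mod_cast Algebra.norm_ne_zero_iff.2 (RingOfIntegers.coe_ne_zero_iff.2 hf0)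
    have h2 : |(Algebra.norm ℚ (f : k) : ℝ)| ≤ (C0 + 1) * ((a : ℝ) ^ d) ^ (N * e - 1) := by
      refine h1.trans ?_
      have : 0 < ((a : ℝ) ^ d) ^ (N * e - 1) := by positivity
      nlinarith
    have h3 := Real.log_le_log hpos h2
    rw [Real.log_mul (by positivity) (by positivity), Real.log_pow, Real.log_pow] at h3
    linarith
  have g3 : Real.log n ≤ Real.log a - m * Real.log p0 + N * Real.log p0 := by
    have hp1 : (1 : ℝ) < p0 := by exact_mod_cast hp0.one_lt
    have hlp : 0 < Real.log p0 := Real.log_pos hp1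
    have h1 : (p0 : ℝ) ^ (N * j) * n ≤ a := by
      have : p0 ^ (N * j) * n ≤ a := by omega
      exact_mod_cast this
    have hnr : (0 : ℝ) < n := by exact_mod_cast hn0
    have h2 := Real.log_le_log (by positivity) h1
    rw [Real.log_mul (by positivity) (by positivity), Real.log_pow] at h2
    have h3 : (m : ℝ) ≤ ((N * j : ℕ) : ℝ) + N := by exact_mod_cast hmN.le
    nlinarith
  have g4 : ((N * e - 1 : ℕ) : ℝ) = N * e - 1 := by
    rw [Nat.cast_sub hNe]
    push_cast
    ring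
  rw [g1]
  rw [g4] at g2
  have g5 : (d : ℝ) * Real.log n ≤ d * (Real.log a - m * Real.log p0 + N * Real.log p0) :=
    mul_le_mul_of_nonneg_left g3 hdpos.le
  nlinarith

end Pool.Agent.Helper892.ST
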