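import Mathlib

/-!
Two numbers with prescribed prime factors which are congruent modulo a large power of a prime.
-/

set_option autoImplicit false

namespace Pool.Agent.Helper892.ST

theorem pig (p0 : ℕ) (hp0 : p0.Prime) (T : Finset ℕ) (hT : ∀ p ∈ T, p.Prime ∧ p ≠ p0) (A m : ℕ)
    (h : p0 ^ m < (A + 1) ^ T.card) : ∃ a b : ℕ, 0 < b ∧ b < a ∧ a.Coprime b ∧ p0 ^ m ∣ a - b ∧
      a ∣ (∏ p ∈ T, p) ^ A ∧ b ∣ (∏ p ∈ T, p) ^ A := by
  classical
  have : NeZero (p0 ^ m) := ⟨pow_ne_zero _ hp0.ne_zero⟩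
  set g : (T → Fin (A + 1)) → ℕ := fun e => ∏ q : T, (q : ℕ) ^ (e q : ℕ) with hg
  have hcard : Fintype.card (ZMod (p0 ^ m)) < Fintype.card (T → Fin (A + 1)) := by
    rw [ZMod.card, Fintype.card_fun, Fintype.card_fin, Fintype.card_coe]
    exact h
  obtain ⟨e, e', hne, hee⟩ := Fintype.exists_ne_map_eq_of_card_lt
    (fun e => ((g e : ℕ) : ZMod (p0 ^ m))) hcard
  have hfac : ∀ (e : T → Fin (A + 1)) (q : T), (g e).factorization q = (e q : ℕ) := by
    intro e q
    rw [hg]
    simp only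
    rw [Nat.factorization_prod (fun (x : T) _ => pow_ne_zero _ (hT x x.2).1.ne_zero)]
    rw [Finsupp.finsetSum_apply]
    rw [Finset.sum_eq_single q]
    · rw [(hT q q.2).1.factorization_pow, Finsupp.single_eq_same]
    · intro r _ hr
      rw [(hT r r.2).1.factorization_pow, Finsupp.single_apply, if_neg]
      intro h1
      exact hr (Subtype.ext h1)
    · intro h1
      exact absurd (Finset.mem_univ q) h1
  have hgne : g e ≠ g e' := by
    intro h1
    apply hne
    funext q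
    apply Fin.ext
    rw [← hfac e q, ← hfac e' q, h1]
  have hgpos : ∀ e, 0 < g e := fun e => Finset.prod_pos fun q _ => pow_pos (hT q q.2).1.pos _
  have hgle : ∀ e, g e ∣ (∏ p ∈ T, p) ^ A := by
    intro e
    rw [← Finset.prod_pow, ← Finset.prod_coe_sort T (fun p => p ^ A)]
    refine Finset.prod_dvd_prod_of_dvd _ _ fun q _ => ?_
    exact pow_dvd_pow _ (Nat.lt_succ_iff.1 (e q).2)
  have hgpr : ∀ e (p : ℕ), p.Prime → p ∣ g e → p ∈ T := by
    intro e p hp hd
    rw [hg] at hd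
    obtain ⟨q, -, hq⟩ := (hp.prime.dvd_finsetProd_iff _).1 hd
    have h1 := hp.dvd_of_dvd_pow hq
    rw [(Nat.prime_dvd_prime_iff_eq hp (hT q q.2).1).1 h1]
    exact q.2
  -- the case of ordered numbers
  have key : ∀ e e' : T → Fin (A + 1), g e' < g e →
      ((g e : ℕ) : ZMod (p0 ^ m)) = ((g e' : ℕ) : ZMod (p0 ^ m)) →
      ∃ a b : ℕ, 0 < b ∧ b < a ∧ a.Coprime b ∧ p0 ^ m ∣ a - b ∧
      a ∣ (∏ p ∈ T, p) ^ A ∧ b ∣ (∏ p ∈ T, p) ^ A := by
    intro e e' hlt heq
    set x := g e with hx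
    set y := g e' with hy
    have hx0 : 0 < x := hgpos e
    have hy0 : 0 < y := hgpos e'
    set d := Nat.gcd x y with hd
    have hd0 : 0 < d := Nat.gcd_pos_of_pos_left _ hx0
    obtain ⟨a, ha⟩ : d ∣ x := Nat.gcd_dvd_left x y
    obtain ⟨b, hb⟩ : d ∣ y := Nat.gcd_dvd_right x y
    have hdx : ∀ p : ℕ, p.Prime → p ∣ d → p ∈ T := fun p hp h1 =>
      hgpr e p hp (h1.trans (Nat.gcd_dvd_left x y))
    have hcop : Nat.Coprime (p0 ^ m) d := by
      refine Nat.Coprime.pow_left _ ?_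
      rw [hp0.coprime_iff_not_dvd]
      intro h1
      exact (hT p0 (hdx p0 hp0 h1)).2 rfl
    have hb0 : 0 < b := by
      rcases Nat.eq_zero_or_pos b with h1 | h1
      · rw [h1, mul_zero] at hb
        omega
      · exact h1
    have hab : b < a := by
      have h1 : d * b < d * a := by rw [← ha, ← hb]; exact hlt
      exact lt_of_mul_lt_mul_left h1 hd0.le
    refine ⟨a, b, hb0, hab, ?_, ?_, ?_, ?_⟩
    · have h1 := Nat.coprime_div_gcd_div_gcd (m := x) (n := y) hd0
      rw [← hd] at h1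
      have e1 : x / d = a := by rw [ha, Nat.mul_div_cancel_left _ hd0]
      have e2 : y / d = b := by rw [hb, Nat.mul_div_cancel_left _ hd0]
      rwa [e1, e2] at h1
    · have h1 : p0 ^ m ∣ x - y := by
        rw [← Nat.modEq_iff_dvd' hlt.le]
        exact (ZMod.natCast_eq_natCast_iff _ _ _).1 heq.symm
      rw [ha, hb, ← Nat.mul_sub] at h1
      exact hcop.dvd_of_dvd_mul_left h1
    · refine dvd_trans ?_ (hgle e)
      rw [← hx, ha]
      exact dvd_mul_left a d
    · refine dvd_trans ?_ (hgle e')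
      rw [← hy, hb]
      exact dvd_mul_left b d
  rcases lt_or_gt_of_ne hgne with h1 | h1
  · exact key e' e h1 hee.symm
  · exact key e e' h1 hee

end Pool.Agent.Helper892.ST
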