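import Pool.Agent.Helper892.ER.Prox

/-!
The primes dividing a given number in an extension.
-/

set_option autoImplicit false

open NumberField Module IsDedekindDomain

namespace Pool.Agent.Helper892.ST

open Pool.Agent.Helper892.ER

section

variable (L : Type) [Field L] [NumberField L]

lemma norm_span_nat (R : ℕ) : Ideal.absNorm (Ideal.span {((R : ℕ) : 𝓞 L)}) = R ^ finrank ℚ L := by
  rw [Ideal.absNorm_span_singleton]
  have h1 : Algebra.norm ℤ ((R : ℕ) : 𝓞 L) = (R : ℤ) ^ finrank ℤ (𝓞 L) := by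
    have := Algebra.norm_algebraMap (R := ℤ) (S := 𝓞 L) (R : ℤ)
    rwa [map_natCast] at this
  rw [h1, RingOfIntegers.rank, Int.natAbs_pow, Int.natAbs_natCast]

lemma finite_mem {R : ℕ} (hR : 0 < R) :
    {w : HeightOneSpectrum (𝓞 L) | ((R : ℕ) : 𝓞 L) ∈ w.asIdeal}.Finite := by
  have h0 : Ideal.span {((R : ℕ) : 𝓞 L)} ≠ 0 := by
    intro h
    rw [Ideal.zero_eq_bot, Ideal.span_singleton_eq_bot] at h
    exact hR.ne' (by exact_mod_cast h)
  refine (Ideal.finite_factors h0).subset ?_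
  intro w hw
  show w.asIdeal ∣ Ideal.span {((R : ℕ) : 𝓞 L)}
  rw [Ideal.dvd_span_singleton]
  exact hw

lemma sum_primes_le {R : ℕ} (hR : 0 < R) (W : Finset (HeightOneSpectrum (𝓞 L)))
    (hW : ∀ w ∈ W, ((R : ℕ) : 𝓞 L) ∈ w.asIdeal) :
    ∑ w ∈ W, Real.log (Ideal.absNorm w.asIdeal : ℕ) ≤ finrank ℚ L * Real.log R := by
  classical
  have h1 : ∏ w ∈ W, w.asIdeal ∣ Ideal.span {((R : ℕ) : 𝓞 L)} := by
    have h2 : ∏ w ∈ W, w.asIdeal = ∏ I ∈ W.image (fun w => w.asIdeal), I := by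
      rw [Finset.prod_image]
      intro w _ w' _ h
      exact HeightOneSpectrum.ext h
    rw [h2]
    refine Finset.prod_primes_dvd _ ?_ ?_
    · intro I hI
      obtain ⟨w, -, rfl⟩ := Finset.mem_image.1 hI
      exact w.prime
    · intro I hI
      obtain ⟨w, hw, rfl⟩ := Finset.mem_image.1 hI
      rw [Ideal.dvd_span_singleton]
      exact hW w hw
  have h3 : ∏ w ∈ W, Ideal.absNorm w.asIdeal ∣ R ^ finrank ℚ L := by
    rw [← norm_span_nat, ← map_prod]
    exact map_dvd _ h1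
  have h4 : ∏ w ∈ W, Ideal.absNorm w.asIdeal ≤ R ^ finrank ℚ L :=
    Nat.le_of_dvd (pow_pos hR _) h3
  have hpos : ∀ w ∈ W, (0 : ℝ) < (Ideal.absNorm w.asIdeal : ℕ) := by
    intro w _
    have := HeightOneSpectrum.one_lt_absNorm w
    exact_mod_cast (by omega : 0 < Ideal.absNorm w.asIdeal)
  rw [← Real.log_prod (fun w hw => (hpos w hw).ne'), ← Real.log_pow]
  refine Real.log_le_log (Finset.prod_pos hpos) ?_
  exact_mod_cast h4

end

/-- the truncated counting function for the zeros and poles of `u` -/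
noncomputable def tcL (k : Type) {L : Type} [Field k] [NumberField k] [Field L] [NumberField L]
    [Algebra k L] (S : Finset (HeightOneSpectrum (𝓞 k))) (u : L) : ℝ :=
  (∑ᶠ w ∈ {w : HeightOneSpectrum (𝓞 L) | w ∉ above S L ∧
    0 < Real.posLog (av w u) + Real.posLog (av w u⁻¹)},
    Real.log (Ideal.absNorm w.asIdeal : ℕ)) / finrank k L

lemma av_nat_ne {L : Type} [Field L] [NumberField L] {R A a : ℕ} (ha : a ∣ R ^ A)
    (w : HeightOneSpectrum (𝓞 L)) (h : av w (a : L) ≠ 1) : ((R : ℕ) : 𝓞 L) ∈ w.asIdeal := by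
  have h0 : ((((a : ℕ) : 𝓞 L) : 𝓞 L) : L) = (a : L) := map_natCast (algebraMap (𝓞 L) L) a
  have h1 : ((a : ℕ) : 𝓞 L) ∈ w.asIdeal := by
    rw [← av_lt_one_iff, h0]
    refine lt_of_le_of_ne ?_ h
    rw [← h0]
    exact av_int w _
  obtain ⟨c, hc⟩ := ha
  have h2 : (((R : ℕ) : 𝓞 L)) ^ A ∈ w.asIdeal := by
    have : (((R : ℕ) : 𝓞 L)) ^ A = (a : 𝓞 L) * (c : 𝓞 L) := by
      rw [← Nat.cast_pow, hc, Nat.cast_mul]
    rw [this]
    exact Ideal.mul_mem_right _ _ h1
  exact w.isPrime.mem_of_pow_mem _ h2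

theorem tc_le (k L : Type) [Field k] [NumberField k] [Field L] [NumberField L]
    [Algebra k L] (S : Finset (HeightOneSpectrum (𝓞 k))) {R A a b : ℕ} (hR : 0 < R)
    (ha : a ∣ R ^ A) (hb : b ∣ R ^ A) :
    tcL k S (algebraMap k L ((a : k) / b)) ≤ finrank ℚ k * Real.log R := by
  classical
  have hkL : (0 : ℝ) < finrank k L := by exact_mod_cast finrank_pos
  unfold tcL
  rw [div_le_iff₀ hkL]
  set V : Set (HeightOneSpectrum (𝓞 L)) :=
    {w | w ∉ above S L ∧ 0 < Real.posLog (av w (algebraMap k L ((a : k) / b))) +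
      Real.posLog (av w (algebraMap k L ((a : k) / b))⁻¹)} with hV
  have hsub : V ⊆ {w | ((R : ℕ) : 𝓞 L) ∈ w.asIdeal} := by
    rintro w ⟨-, hw⟩
    by_contra hR'
    refine hw.ne' ?_
    suffices h : av w (algebraMap k L ((a : k) / b)) = 1 by
      rw [map_inv₀, h, inv_one, Real.posLog_one, add_zero]
    have h1 : av w (a : L) = 1 := by
      by_contra h
      exact hR' (av_nat_ne ha w h)
    have h2 : av w (b : L) = 1 := by
      by_contra h
      exact hR' (av_nat_ne hb w h)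
    rw [map_div₀, map_natCast, map_natCast, map_div₀, h1, h2, div_one]
  have hfin : V.Finite := (finite_mem L hR).subset hsub
  rw [finsum_mem_eq_finite_toFinset_sum _ hfin]
  have h1 := sum_primes_le L hR hfin.toFinset (fun w hw => hsub (hfin.mem_toFinset.1 hw))
  refine h1.trans (le_of_eq ?_)
  have h2 : (finrank ℚ L : ℝ) = finrank ℚ k * finrank k L := by
    exact_mod_cast (finrank_mul_finrank ℚ k L).symm
  rw [h2]
  ring

end Pool.Agent.Helper892.ST
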