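import Pool.Agent.Helper892.ST.Main
import Pool.Agent.Helper892.TC.Trunc

/-!
The error term of the inequality with proximity on superelliptic curves over the rational numbers.
-/

set_option autoImplicit false

open NumberField Module IntermediateField Polynomial Height IsDedekindDomain

namespace Pool.Agent.Helper892.ST

open Pool.Agent.Helper892.VE Pool.Agent.Helper892.QR Pool.Agent.Helper892.ER

section

variable {L : Type} [Field L] [NumberField L]

/-- the height as a sum over the primes -/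
lemma ht_eq (x : L) : logHeight₁ x = ∑ v : InfinitePlace L, (v.mult : ℝ) * Real.posLog (v x) +
    ∑ᶠ q : HeightOneSpectrum (𝓞 L), Real.posLog (av q x) := by
  have h1 : ∑ᶠ p : HeightOneSpectrum (𝓞 L), Real.posLog (av p x) =
      ∑ᶠ w : FinitePlace L, Real.posLog (w x) := by
    rw [← finsum_comp_equiv (FinitePlace.equivHeightOneSpectrum (K := L)).symm]
    refine finsum_congr fun p => ?_
    rw [← mk_eq_av]
    rfl
  rw [h1, NumberField.logHeight₁_eq]

/-- the primes above given primes -/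
def abv (T : Finset ℕ) (L : Type) [Field L] [NumberField L] : Set (HeightOneSpectrum (𝓞 L)) :=
  {q | ∃ p ∈ T, ((p : ℕ) : 𝓞 L) ∈ q.asIdeal}

lemma abv_finite {T : Finset ℕ} (hT : ∀ p ∈ T, p.Prime) : (abv T L).Finite := by
  have h0 : 0 < ∏ p ∈ T, p := Finset.prod_pos fun p hp => (hT p hp).pos
  refine (finite_mem L h0).subset ?_
  rintro q ⟨p, hp, hq⟩
  obtain ⟨c, hc⟩ := Finset.dvd_prod_of_mem (fun p => p) hp
  show ((∏ p ∈ T, p : ℕ) : 𝓞 L) ∈ q.asIdeal
  rw [hc, Nat.cast_mul]
  exact Ideal.mul_mem_right _ _ hq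

lemma mem_abv {T : Finset ℕ} {q : HeightOneSpectrum (𝓞 L)}
    (h : ((∏ p ∈ T, p : ℕ) : 𝓞 L) ∈ q.asIdeal) : q ∈ abv T L := by
  rw [Nat.cast_prod] at h
  obtain ⟨p, hp, hq⟩ := (q.isPrime.prod_mem_iff).1 h
  exact ⟨p, hp, hq⟩

/-- the proximity function of a unit outside `T` -/
lemma prox_eq {T : Finset ℕ} (hT : ∀ p ∈ T, p.Prime) (u : L)
    (h : ∀ q : HeightOneSpectrum (𝓞 L), q ∉ abv T L → av q u = 1) :
    ∑ v : InfinitePlace L, (v.mult : ℝ) * (Real.posLog (v u) + Real.posLog (v u⁻¹)) +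
      ∑ᶠ q ∈ abv T L, (Real.posLog (av q u) + Real.posLog (av q u⁻¹)) = 2 * logHeight₁ u := by
  have hfin : (abv T L).Finite := abv_finite hT
  have key : ∀ x : L, (∀ q : HeightOneSpectrum (𝓞 L), q ∉ abv T L → av q x = 1) →
      ∑ᶠ q ∈ abv T L, Real.posLog (av q x) = ∑ᶠ q : HeightOneSpectrum (𝓞 L), Real.posLog (av q x) := by
    intro x hx
    rw [finsum_mem_def]
    refine finsum_congr fun q => ?_
    by_cases hq : q ∈ abv T L
    · rw [Set.indicator_of_mem hq]
    · rw [Set.indicator_of_notMem hq, hx q hq, Real.posLog_one]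
  have h' : ∀ q : HeightOneSpectrum (𝓞 L), q ∉ abv T L → av q u⁻¹ = 1 := by
    intro q hq
    rw [map_inv₀, h q hq, inv_one]
  rw [finsum_mem_add_distrib hfin, key u h, key u⁻¹ h']
  have e1 := ht_eq u
  have e2 := ht_eq u⁻¹
  rw [logHeight₁_inv] at e2
  have e3 : ∑ v : InfinitePlace L, (v.mult : ℝ) * (Real.posLog (v u) + Real.posLog (v u⁻¹)) =
      ∑ v : InfinitePlace L, (v.mult : ℝ) * Real.posLog (v u) +
      ∑ v : InfinitePlace L, (v.mult : ℝ) * Real.posLog (v u⁻¹) := by
    rw [← Finset.sum_add_distrib]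
    exact Finset.sum_congr rfl fun v _ => mul_add _ _ _
  rw [e3]
  linarith

end

theorem main51 (F : ℚ[X]) (hF0 : F ≠ 0) (hF1 : F.eval 1 = 0) {N e : ℕ} (hN : 2 ≤ N) (he : 1 ≤ e)
    (hF : F.natDegree ≤ N * e) (T : Finset ℕ) (hT : ∀ p ∈ T, p.Prime) (hTn : T.Nonempty) :
    ∃ C : ℝ, ∀ T0 : ℝ,
    ∃ (L : Type) (_ : Field L) (_ : NumberField L) (u : ℚ) (w : L),
      w ^ N = algebraMap ℚ L (F.eval u) ∧ ℚ⟮w⟯ = ⊤ ∧ finrank ℚ L ≤ N ∧
      (∀ q : HeightOneSpectrum (𝓞 L), q ∉ abv T L → av q (algebraMap ℚ L u) = 1) ∧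
      T0 < logHeight₁ u ∧
      (N - 1) / N * T.card * Real.log ((N - 1) * e * logHeight₁ u) - C ≤
        (N - 1) * e * logHeight₁ u - lD ℚ L := by
  obtain ⟨p0, hp0n, hp0⟩ := Nat.exists_infinite_primes (∑ p ∈ T, p + 1)
  have hp0T : ∀ p ∈ T, p.Prime ∧ p ≠ p0 := by
    intro p hp
    refine ⟨hT p hp, ?_⟩
    rintro rfl
    have := Finset.single_le_sum (f := fun p => p) (fun p _ => Nat.zero_le p) hp
    omega
  obtain ⟨C, B, hpt⟩ := exists_pt ℚ F hF0 hF1 hN he hF hp0
  set R : ℕ := ∏ p ∈ T, p with hR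
  have hR0 : 0 < R := Finset.prod_pos fun p hp => (hT p hp).pos
  have hs : 1 ≤ T.card := Finset.card_pos.2 hTn
  have hsr : (1 : ℝ) ≤ T.card := by exact_mod_cast hs
  have hlogR : 0 ≤ Real.log (R : ℝ) := Real.log_natCast_nonneg R
  have hNr : (2 : ℝ) ≤ N := by exact_mod_cast hN
  have her : (1 : ℝ) ≤ e := by exact_mod_cast he
  have hlp : 0 < Real.log (p0 : ℝ) := Real.log_pos (by exact_mod_cast hp0.one_lt)
  set M1 : ℝ := (N - 1) * e * Real.log (R : ℝ) + 1 with hM1
  have hM11 : 1 ≤ M1 := by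
    have : 0 ≤ ((N : ℝ) - 1) * e * Real.log (R : ℝ) := by
      have : (0 : ℝ) ≤ N - 1 := by linarith
      positivity
    linarith
  have hN' : (0 : ℝ) ≤ ((N : ℝ) - 1) / N := div_nonneg (by linarith) (by linarith)
  have hN'' : ((N : ℝ) - 1) / N ≤ 1 := by
    rw [div_le_one (by linarith)]
    linarith
  refine ⟨C + 2 * Real.log p0 + T.card * Real.log M1, fun T0 => ?_⟩
  obtain ⟨A, hA⟩ := exists_nat_gt (Real.exp (max (max T0 B) 0 + 2 * Real.log p0) + 1)
  have hA0 : (1 : ℝ) < A := by
    have := Real.exp_pos (max (max T0 B) 0 + 2 * Real.log p0)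
    linarith
  have hlogA : max (max T0 B) 0 + 2 * Real.log p0 ≤ Real.log (A + 1) := by
    rw [Real.le_log_iff_exp_le (by linarith)]
    linarith
  set X' : ℕ := (A + 1) ^ T.card with hX'
  have hlogX : (T.card : ℝ) * Real.log (A + 1) = Real.log X' := by
    rw [hX']
    push_cast
    rw [Real.log_pow]
  have hX0 : 0 < X' := by positivity
  have hX1 : Real.log (A + 1) ≤ Real.log X' := by
    rw [← hlogX]
    have : 0 ≤ Real.log ((A : ℝ) + 1) := Real.log_nonneg (by linarith)
    nlinarith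
  have hXp : p0 ≤ X' := by
    have h1 : Real.log (p0 : ℝ) ≤ Real.log X' := by
      have : 0 ≤ max (max T0 B) 0 := le_max_right _ _
      linarith
    have h2 := (Real.log_le_log_iff (by exact_mod_cast hp0.pos) (by exact_mod_cast hX0)).1 h1
    exact_mod_cast h2
  have hlog1 : 1 ≤ Nat.log p0 X' := Nat.log_pos hp0.one_lt hXp
  set m : ℕ := Nat.log p0 X' - 1 with hm
  have hm1 : m + 1 = Nat.log p0 X' := by omega
  have hm2 : p0 ^ m < X' := by
    have h1 : p0 ^ (m + 1) ≤ X' := by
      rw [hm1]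
      exact Nat.pow_log_le_self p0 hX0.ne'
    calc p0 ^ m < p0 ^ (m + 1) := Nat.pow_lt_pow_right hp0.one_lt (Nat.lt_succ_self m)
      _ ≤ X' := h1
  have hm3 : Real.log X' ≤ (m + 2) * Real.log p0 := by
    have h1 : X' < p0 ^ (m + 2) := by
      have := Nat.lt_pow_succ_log_self (b := p0) hp0.one_lt X'
      rwa [← hm1] at this
    have h2 : (X' : ℝ) ≤ p0 ^ (m + 2) := by exact_mod_cast h1.le
    have h3 := Real.log_le_log (by exact_mod_cast hX0) h2
    rw [Real.log_pow] at h3
    push_cast at h3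
    exact h3
  obtain ⟨a, b, hb0, hba, hcop, hdvd, haR, hbR⟩ := pig p0 hp0 T hp0T A m hm2
  have hht := ht_frac ℚ hb0 hba hcop
  rw [finrank_self, Nat.cast_one, one_mul] at hht
  have ha0 : 0 < a := by omega
  have hlog : max (max T0 B) 0 < Real.log a := by
    have h0 : m * Real.log p0 < Real.log a := by
      rw [← Real.log_pow]
      apply Real.log_lt_log (pow_pos (by exact_mod_cast hp0.pos) _)
      have h1 : p0 ^ m ≤ a - b := Nat.le_of_dvd (by omega) hdvd
      have h2 : p0 ^ m < a := by omega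
      exact_mod_cast h2
    linarith
  have hlogT : T0 < Real.log a := lt_of_le_of_lt ((le_max_left _ _).trans (le_max_left _ _)) hlog
  have hlogB : B < Real.log a := lt_of_le_of_lt ((le_max_right _ _).trans (le_max_left _ _)) hlog
  have hlog0 : 0 < Real.log a := lt_of_le_of_lt (le_max_right _ _) hlog
  obtain ⟨L, iF, iN, iA, w, hw, htop, hdeg, hld⟩ := hpt a b m hb0 hba hdvd (by rw [hht]; exact hlogB)
  have hiA : iA = DivisionRing.toRatAlgebra := Subsingleton.elim _ _
  subst hiA
  refine ⟨L, iF, iN, (a : ℚ) / b, w, hw, htop, hdeg, ?_, ?_, ?_⟩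
  · intro q hq
    have hRq : ((R : ℕ) : 𝓞 L) ∉ q.asIdeal := fun h => hq (mem_abv h)
    have h1 : av q (a : L) = 1 := by
      by_contra h
      exact hRq (av_nat_ne haR q h)
    have h2 : av q (b : L) = 1 := by
      by_contra h
      exact hRq (av_nat_ne hbR q h)
    rw [map_div₀, map_natCast, map_natCast, map_div₀, h1, h2, div_one]
  · rw [hht]
    exact hlogT
  · rw [hht]
    have hlogaA : Real.log a ≤ A * Real.log (R : ℝ) := by
      rw [← Real.log_pow]
      apply Real.log_le_log (by exact_mod_cast ha0)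
      exact_mod_cast Nat.le_of_dvd (pow_pos hR0 _) haR
    have g1 : Real.log ((N - 1) * e * Real.log a) ≤ Real.log (A + 1) + Real.log M1 := by
      rw [← Real.log_mul (by linarith) (by linarith)]
      apply Real.log_le_log
      · have : (0 : ℝ) < N - 1 := by linarith
        positivity
      · have h1 : ((N : ℝ) - 1) * e * Real.log a ≤ (N - 1) * e * (A * Real.log (R : ℝ)) := by
          refine mul_le_mul_of_nonneg_left hlogaA ?_
          have : (0 : ℝ) ≤ N - 1 := by linarith
          positivity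
        have h2 : ((N : ℝ) - 1) * e * (A * Real.log (R : ℝ)) ≤ (A + 1) * M1 := by
          have h3 : ((N : ℝ) - 1) * e * (A * Real.log (R : ℝ)) = A * (M1 - 1) := by
            rw [hM1]
            ring
          rw [h3]
          nlinarith
        linarith
    have g2 : (N - 1) / N * T.card * Real.log ((N - 1) * e * Real.log a) ≤
        (N - 1) / N * (T.card * Real.log (A + 1)) + T.card * Real.log M1 := by
      have h1 : (N - 1) / N * T.card * Real.log ((N - 1) * e * Real.log a) ≤
          (N - 1) / N * T.card * (Real.log (A + 1) + Real.log M1) :=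
        mul_le_mul_of_nonneg_left g1 (by positivity)
      have h2 : (N - 1) / N * (T.card * Real.log M1) ≤ 1 * (T.card * Real.log M1) :=
        mul_le_mul_of_nonneg_right hN'' (mul_nonneg (by positivity) (Real.log_nonneg hM11))
      nlinarith
    have g3 : (N - 1) / N * (T.card * Real.log (A + 1)) ≤
        (N - 1) / N * (m * Real.log p0) + 2 * Real.log p0 := by
      rw [hlogX]
      have h1 : (N - 1) / N * Real.log X' ≤ (N - 1) / N * ((m + 2) * Real.log p0) :=
        mul_le_mul_of_nonneg_left hm3 hN'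
      have h2 : (N - 1) / N * (2 * Real.log p0) ≤ 1 * (2 * Real.log p0) :=
        mul_le_mul_of_nonneg_right hN'' (by positivity)
      nlinarith
    have g4 : (lD ℚ L : ℝ) ≤ C + (N - 1) * e * Real.log a - (N - 1) / N * (m * Real.log p0) := by
      have := hld
      rw [finrank_self, Nat.cast_one, one_mul, one_mul] at this
      exact this
    linarith

end Pool.Agent.Helper892.ST
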