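import Pool.Agent.Helper892.ST.Pig
import Pool.Agent.Helper892.ST.Arith
import Pool.Agent.Helper892.ST.Prm
import Pool.Agent.Helper892.ST.Param

/-!
The error term of the truncated inequality on superelliptic curves.
-/

set_option autoImplicit false

open NumberField Module IntermediateField Polynomial Height IsDedekindDomain

namespace Pool.Agent.Helper892.ST

open Pool.Agent.Helper892.VE Pool.Agent.Helper892.QR Pool.Agent.Helper892.ER

variable (k : Type) [Field k] [NumberField k]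

/-- a bound for the heights of the roots -/
lemma roots_bound (F : k[X]) (hF0 : F ≠ 0) : ∃ B : ℝ, ∀ u : k, B < logHeight₁ u → F.eval u ≠ 0 := by
  classical
  refine ⟨∑ r ∈ F.roots.toFinset, logHeight₁ r, fun u hu h => ?_⟩
  have hmem : u ∈ F.roots.toFinset := by
    rw [Multiset.mem_toFinset, mem_roots hF0]
    exact h
  have := Finset.single_le_sum (f := fun r => logHeight₁ r) (fun r _ => zero_le_logHeight₁ r) hmem
  linarith

/-- the points over fractions of congruent numbers -/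
theorem exists_pt (F : k[X]) (hF0 : F ≠ 0) (hF1 : F.eval 1 = 0) {N e : ℕ} (hN : 2 ≤ N) (he : 1 ≤ e)
    (hF : F.natDegree ≤ N * e) {p0 : ℕ} (hp0 : p0.Prime) : ∃ C B : ℝ, ∀ a b m : ℕ, 0 < b → b < a →
    p0 ^ m ∣ a - b → B < logHeight₁ ((a : k) / b) →
    ∃ (L : Type) (_ : Field L) (_ : NumberField L) (_ : Algebra k L) (w : L),
      w ^ N = algebraMap k L (F.eval ((a : k) / b)) ∧ k⟮w⟯ = ⊤ ∧ finrank k L ≤ N ∧
      lD k L ≤ C + (N - 1) * e * (finrank ℚ k * Real.log a) -
        finrank ℚ k * ((N - 1) / N * (m * Real.log p0)) := by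
  obtain ⟨C, hC⟩ := exists_A k F hF1 (by omega : 1 ≤ N) he hF hp0
  obtain ⟨B, hB⟩ := roots_bound k F hF0
  refine ⟨finrank ℚ k * Real.log N + (N - 1 : ℝ) / N * C, B, fun a b m hb0 hba hdvd hBu => ?_⟩
  obtain ⟨A, s, hs, hA, hAs, hnorm⟩ := hC a b m hb0 hba hdvd (hB _ hBu)
  obtain ⟨L, iF, iN, iA, α, hα, htop, hdeg, hld⟩ := exists_root_field k (by omega : 1 ≤ N) A hA
  have hNr : (2 : ℝ) ≤ N := by exact_mod_cast hN
  have hsL : algebraMap k L s ≠ 0 := by
    rwa [Ne, map_eq_zero]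
  refine ⟨L, iF, iN, iA, α / algebraMap k L s, ?_, ?_, hdeg, ?_⟩
  · rw [div_pow, hα, hAs, map_mul, map_pow]
    field_simp
  · rw [eq_top_iff, ← htop, adjoin_simple_le_iff]
    have h1 : α / algebraMap k L s * algebraMap k L s = α := by field_simp
    have h2 : α / algebraMap k L s * algebraMap k L s ∈ k⟮α / algebraMap k L s⟯ :=
      mul_mem (mem_adjoin_simple_self k _) (IntermediateField.algebraMap_mem _ s)
    rwa [h1] at h2
  · refine hld.trans ?_
    have h1 : (N - 1 : ℝ) / N * Real.log |(Algebra.norm ℚ (A : k) : ℝ)| ≤ (N - 1 : ℝ) / N *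
        (finrank ℚ k * (N * e * Real.log a - m * Real.log p0) + C) :=
      mul_le_mul_of_nonneg_left hnorm (div_nonneg (by linarith) (by linarith))
    have h2 : (N - 1 : ℝ) / N * (finrank ℚ k * (N * e * Real.log a - m * Real.log p0) + C) =
        (N - 1 : ℝ) / N * C + (N - 1) * e * (finrank ℚ k * Real.log a) -
        finrank ℚ k * ((N - 1) / N * (m * Real.log p0)) := by
      field_simp
      ring
    linarith

theorem main (F : k[X]) (hF0 : F ≠ 0) (hF1 : F.eval 1 = 0) {N e : ℕ} (hN : 2 ≤ N) (he : 1 ≤ e)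
    (hF : F.natDegree ≤ N * e) (S : Finset (HeightOneSpectrum (𝓞 k))) (β : ℝ) (hβ0 : 0 < β)
    (hβ : β < (N - 1) / (2 * N - 1)) (T0 : ℝ) :
    ∃ (L : Type) (_ : Field L) (_ : NumberField L) (_ : Algebra k L) (u : k) (w : L),
      w ^ N = algebraMap k L (F.eval u) ∧ k⟮w⟯ = ⊤ ∧ finrank k L ≤ N ∧
      T0 < (N - 1) * e * logHeight₁ u ∧
      tcL k S (algebraMap k L u) + lD k L + ((N - 1) * e * logHeight₁ u) ^ β ≤
        (N - 1) * e * logHeight₁ u := by
  obtain ⟨C, B, hpt⟩ := exists_pt k F hF0 hF1 hN he hF Nat.prime_two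
  have hd1 : 1 ≤ finrank ℚ k := finrank_pos
  obtain ⟨Y, A, m, hpig, hT0, hpar⟩ := params N e (finrank ℚ k) hN hd1 β hβ0 hβ C
    (max (max T0 B) 0)
  obtain ⟨a, b, hb0, hba, hcop, hdvd, haR, hbR⟩ := pig 2 Nat.prime_two (TT Y)
    (fun p hp => mem_TT hp) A m hpig
  set R : ℕ := ∏ p ∈ TT Y, p with hR
  have hR0 : 0 < R := Finset.prod_pos fun p hp => (mem_TT hp).1.pos
  have hht := ht_frac k hb0 hba hcop
  have ha0 : 0 < a := by omega
  have hdr : (1 : ℝ) ≤ finrank ℚ k := by exact_mod_cast hd1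
  have hNr : (2 : ℝ) ≤ N := by exact_mod_cast hN
  have her : (1 : ℝ) ≤ e := by exact_mod_cast he
  have hloga0 : 0 ≤ Real.log a := Real.log_natCast_nonneg a
  have hlog : max (max T0 B) 0 < Real.log a := by
    refine lt_of_le_of_lt hT0 ?_
    rw [← Real.log_pow]
    apply Real.log_lt_log (by positivity)
    have h1 : 2 ^ m ≤ a - b := Nat.le_of_dvd (by omega) hdvd
    have h2 : 2 ^ m < a := by omega
    exact_mod_cast h2
  have hlogT : T0 < Real.log a := lt_of_le_of_lt ((le_max_left _ _).trans (le_max_left _ _)) hlog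
  have hlogB : B < Real.log a := lt_of_le_of_lt ((le_max_right _ _).trans (le_max_left _ _)) hlog
  have hlog0 : 0 < Real.log a := lt_of_le_of_lt (le_max_right _ _) hlog
  have hh1 : Real.log a ≤ logHeight₁ ((a : k) / b) := by
    rw [hht]
    nlinarith
  obtain ⟨L, iF, iN, iA, w, hw, htop, hdeg, hld⟩ := hpt a b m hb0 hba hdvd (lt_of_lt_of_le hlogB hh1)
  refine ⟨L, iF, iN, iA, (a : k) / b, w, hw, htop, hdeg, ?_, ?_⟩
  · have h1 : (1 : ℝ) ≤ (N - 1) * e := by nlinarith
    have h2 : logHeight₁ ((a : k) / b) ≤ (N - 1) * e * logHeight₁ ((a : k) / b) := by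
      have : 0 ≤ logHeight₁ ((a : k) / b) := zero_le_logHeight₁ _
      nlinarith
    linarith
  · have htc := tc_le k L S hR0 haR hbR
    have hlogA : Real.log a ≤ A * Real.log (R : ℝ) := by
      rw [← Real.log_pow]
      apply Real.log_le_log (by exact_mod_cast ha0)
      exact_mod_cast Nat.le_of_dvd (pow_pos hR0 _) haR
    have hp := hpar (Real.log a) hlog0.le hlogA
    have e1 : ((N - 1) * e * logHeight₁ ((a : k) / b) : ℝ) =
        ((N - 1) * e * finrank ℚ k : ℝ) * Real.log a := by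
      rw [hht]
      ring
    rw [e1]
    push_cast at hld
    linarith

end Pool.Agent.Helper892.ST
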